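import Pool.Agent.Q230.GD.Geod

/-!
# The flag graph of a linear space is geodetic and 2-connected

The vertices are the points and the flags (incident pairs of a point and a line). Each point is
joined to its flags, and the flags of each line form a clique.
-/

set_option autoImplicit false

namespace Pool.Agent.Q230.GD

inductive Fl {W Ln : Type} (I : W → Ln → Prop) : Type
  | pt (w : W) : Fl I
  | fl (w : W) (l : Ln) (h : I w l) : Fl I

variable {W Ln : Type} {I : W → Ln → Prop}

def fad : Fl I → Fl I → Prop
  | Fl.pt _, Fl.pt _ => False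
  | Fl.pt p, Fl.fl q _ _ => p = q
  | Fl.fl p _ _, Fl.pt q => p = q
  | Fl.fl p l _, Fl.fl q m _ => l = m ∧ p ≠ q

/-- The flag graph. -/
def FG (I : W → Ln → Prop) : SimpleGraph (Fl I) where
  Adj := fad
  symm := by
    constructor
    intro x y h
    cases x <;> cases y
    · exact h
    · exact Eq.symm h
    · exact Eq.symm h
    · exact ⟨h.1.symm, h.2.symm⟩
  loopless := by
    constructor
    intro x h
    cases x
    · exact h
    · exact h.2 rfl

theorem adj_pt_pt {p q : W} : ¬(FG I).Adj (Fl.pt p) (Fl.pt q) := fun h => h

theorem adj_pt_fl {p q : W} {l : Ln} {h : I q l} :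
    (FG I).Adj (Fl.pt p) (Fl.fl q l h) ↔ p = q := Iff.rfl

theorem adj_fl_pt {p q : W} {l : Ln} {h : I p l} :
    (FG I).Adj (Fl.fl p l h) (Fl.pt q) ↔ p = q := Iff.rfl

theorem adj_fl_fl {p q : W} {l m : Ln} {h : I p l} {h' : I q m} :
    (FG I).Adj (Fl.fl p l h) (Fl.fl q m h') ↔ l = m ∧ p ≠ q := Iff.rfl

open Classical in
/-- the distance -/
noncomputable def fd : Fl I → Fl I → ℕ
  | Fl.pt p, Fl.pt q => if p = q then 0 else 3
  | Fl.fl p l _, Fl.pt q => if p = q then 1 else if I q l then 2 else 4
  | Fl.pt p, Fl.fl q m _ => if p = q then 1 else if I p m then 2 else 4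
  | Fl.fl p l _, Fl.fl q m _ =>
    if l = m then (if p = q then 0 else 1) else if p = q then 2 else if I p m then 3 else
      if I q l then 3 else if ∃ r, I r l ∧ I r m then 4 else 5

theorem fd_self (x : Fl I) : fd x x = 0 := by
  cases x <;> simp [fd]

/-- each two points are on exactly one line -/
structure Lin (I : W → Ln → Prop) : Prop where
  ex : ∀ p q : W, p ≠ q → ∃ l, I p l ∧ I q l
  un : ∀ (p q : W) (l m : Ln), p ≠ q → I p l → I q l → I p m → I q m → l = m

theorem fd_step (hI : Lin I) (x y : Fl I) (hxy : x ≠ y) :
    ∃ w, (FG I).Adj x w ∧ fd w y + 1 = fd x y ∧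
      ∀ w', (FG I).Adj x w' → fd w' y + 1 ≤ fd x y → w' = w := by
  classical
  cases y with
  | pt q =>
    cases x with
    | pt p =>
      have hpq : p ≠ q := fun h => hxy (by rw [h])
      obtain ⟨l, hl1, hl2⟩ := hI.ex p q hpq
      refine ⟨Fl.fl p l hl1, rfl, ?_, ?_⟩
      · simp [fd, hpq, hl2]
      · rintro (w' | ⟨w', l', h'⟩) ha hle
        · exact absurd ha adj_pt_pt
        · have ha' : p = w' := ha
          subst ha'
          have hq : I q l' := by
            by_contra hcon
            simp [fd, hpq, hcon] at hle
          have := hI.un p q l' l hpq h' hq hl1 hl2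
          subst this
          rfl
    | fl p l hp =>
      by_cases hpq : p = q
      · subst hpq
        refine ⟨Fl.pt p, rfl, by simp [fd], ?_⟩
        rintro (w' | ⟨w', l', h'⟩) ha hle
        · have ha' : p = w' := ha
          rw [ha']
        · obtain ⟨rfl, hne⟩ : l = l' ∧ p ≠ w' := ha
          simp [fd, hne.symm, hp] at hle
      · by_cases hq : I q l
        · refine ⟨Fl.fl q l hq, ⟨rfl, hpq⟩, by simp [fd, hpq, hq], ?_⟩
          rintro (w' | ⟨w', l', h'⟩) ha hle
          · have ha' : p = w' := ha
            subst ha'
            simp [fd, hpq, hq] at hle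
          · obtain ⟨rfl, hne⟩ : l = l' ∧ p ≠ w' := ha
            by_cases hw : w' = q
            · subst hw
              rfl
            · simp [fd, hw, hpq, hq] at hle
        · refine ⟨Fl.pt p, rfl, by simp [fd, hpq, hq], ?_⟩
          rintro (w' | ⟨w', l', h'⟩) ha hle
          · have ha' : p = w' := ha
            rw [ha']
          · obtain ⟨rfl, hne⟩ : l = l' ∧ p ≠ w' := ha
            have hw : w' ≠ q := by
              rintro rfl
              exact hq h'
            simp [fd, hw, hpq, hq] at hle
  | fl q m hq =>
    cases x with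
    | pt p =>
      by_cases hpq : p = q
      · subst hpq
        refine ⟨Fl.fl p m hq, rfl, by simp [fd], ?_⟩
        rintro (w' | ⟨w', l', h'⟩) ha hle
        · exact absurd ha adj_pt_pt
        · have ha' : p = w' := ha
          subst ha'
          by_cases hl : l' = m
          · subst hl
            rfl
          · simp [fd, hl] at hle
      · by_cases hpm : I p m
        · refine ⟨Fl.fl p m hpm, rfl, by simp [fd, hpq, hpm], ?_⟩
          rintro (w' | ⟨w', l', h'⟩) ha hle
          · exact absurd ha adj_pt_pt
          · have ha' : p = w' := ha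
            subst ha'
            by_cases hl : l' = m
            · subst hl
              rfl
            · simp [fd, hl, hpq, hpm] at hle
        · obtain ⟨l, hl1, hl2⟩ := hI.ex p q hpq
          have hlm : l ≠ m := by
            rintro rfl
            exact hpm hl1
          refine ⟨Fl.fl p l hl1, rfl, by simp [fd, hpq, hpm, hlm, hl2], ?_⟩
          rintro (w' | ⟨w', l', h'⟩) ha hle
          · exact absurd ha adj_pt_pt
          · have ha' : p = w' := ha
            subst ha'
            have hlm' : l' ≠ m := by
              rintro rfl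
              exact hpm h'
            by_cases hql : I q l'
            · have := hI.un p q l' l hpq h' hql hl1 hl2
              subst this
              rfl
            · by_cases hr : ∃ r, I r l' ∧ I r m
              · simp [fd, hlm', hpq, hpm, hql, hr] at hle
              · simp [fd, hlm', hpq, hpm, hql, hr] at hle
    | fl p l hp =>
      by_cases hlm : l = m
      · subst hlm
        have hpq : p ≠ q := fun h => hxy (by subst h; rfl)
        refine ⟨Fl.fl q l hq, ⟨rfl, hpq⟩, by simp [fd, hpq], ?_⟩
        rintro (w' | ⟨w', l', h'⟩) ha hle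
        · have ha' : p = w' := ha
          subst ha'
          simp [fd, hpq, hp] at hle
        · obtain ⟨rfl, hne⟩ : l = l' ∧ p ≠ w' := ha
          by_cases hw : w' = q
          · subst hw
            rfl
          · simp [fd, hw, hpq] at hle
      · by_cases hpq : p = q
        · subst hpq
          refine ⟨Fl.pt p, rfl, by simp [fd, hlm], ?_⟩
          rintro (w' | ⟨w', l', h'⟩) ha hle
          · have ha' : p = w' := ha
            rw [ha']
          · obtain ⟨rfl, hne⟩ : l = l' ∧ p ≠ w' := ha
            have h1 : ¬I w' m := fun h => hlm (hI.un w' p l m hne.symm h' hp h hq)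
            simp [fd, hlm, hne.symm, h1, hp] at hle
        · by_cases hpm : I p m
          · have hql : ¬I q l := fun h => hlm (hI.un p q l m hpq hp h hpm hq)
            refine ⟨Fl.pt p, rfl, by simp [fd, hlm, hpq, hpm], ?_⟩
            rintro (w' | ⟨w', l', h'⟩) ha hle
            · have ha' : p = w' := ha
              rw [ha']
            · obtain ⟨rfl, hne⟩ : l = l' ∧ p ≠ w' := ha
              have h1 : ¬I w' m := fun h => hlm (hI.un w' p l m hne.symm h' hp h hpm)
              have h2 : w' ≠ q := by
                rintro rfl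
                exact hql h'
              have h3 : ∃ r, I r l ∧ I r m := ⟨p, hp, hpm⟩
              simp [fd, hlm, h1, h2, hql, h3, hpq, hpm] at hle
          · by_cases hql : I q l
            · refine ⟨Fl.fl q l hql, ⟨rfl, hpq⟩, by simp [fd, hlm, hpq, hpm, hql], ?_⟩
              rintro (w' | ⟨w', l', h'⟩) ha hle
              · have ha' : p = w' := ha
                subst ha'
                simp [fd, hlm, hpq, hpm, hql] at hle
              · obtain ⟨rfl, hne⟩ : l = l' ∧ p ≠ w' := ha
                by_cases hw : w' = q
                · subst hw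
                  rfl
                · have h1 : ¬I w' m := fun h => hlm (hI.un w' q l m hw h' hql h hq)
                  simp [fd, hlm, hw, h1, hpq, hpm, hql] at hle
            · by_cases hr : ∃ r, I r l ∧ I r m
              · obtain ⟨r, hr1, hr2⟩ := hr
                have hrq : r ≠ q := by
                  rintro rfl
                  exact hql hr1
                have hrp : p ≠ r := by
                  rintro rfl
                  exact hpm hr2
                have hr : ∃ r, I r l ∧ I r m := ⟨r, hr1, hr2⟩
                refine ⟨Fl.fl r l hr1, ⟨rfl, hrp⟩, by simp [fd, hlm, hpq, hpm, hql, hr, hrq, hr2], ?_⟩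
                rintro (w' | ⟨w', l', h'⟩) ha hle
                · have ha' : p = w' := ha
                  subst ha'
                  simp [fd, hlm, hpq, hpm, hql, hr] at hle
                · obtain ⟨rfl, hne⟩ : l = l' ∧ p ≠ w' := ha
                  have hw : w' ≠ q := by
                    rintro rfl
                    exact hql h'
                  by_cases hw2 : I w' m
                  · have : w' = r := by
                      by_contra hcon
                      exact hlm (hI.un w' r l m hcon h' hr1 hw2 hr2)
                    subst this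
                    rfl
                  · simp [fd, hlm, hw, hw2, hpq, hpm, hql, hr] at hle
              · refine ⟨Fl.pt p, rfl, by simp [fd, hlm, hpq, hpm, hql, hr], ?_⟩
                rintro (w' | ⟨w', l', h'⟩) ha hle
                · have ha' : p = w' := ha
                  rw [ha']
                · obtain ⟨rfl, hne⟩ : l = l' ∧ p ≠ w' := ha
                  have hw : w' ≠ q := by
                    rintro rfl
                    exact hql h'
                  have hw2 : ¬I w' m := fun h => hr ⟨w', h', h⟩
                  simp [fd, hlm, hw, hw2, hpq, hpm, hql, hr] at hle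

/-- The flag graph of a linear space is geodetic. -/
theorem geodetic_FG (hI : Lin I) [Nonempty W] : Geodetic (FG I) := by
  haveI : Nonempty (Fl I) := ⟨Fl.pt (Classical.arbitrary W)⟩
  exact geodetic_of fd fd_self (fd_step hI)

/-- Any two vertices of the flag graph of a linear space have distance at most five. -/
theorem dist_FG (hI : Lin I) [Nonempty W] (x y : Fl I) : (FG I).dist x y ≤ 5 := by
  haveI : Nonempty (Fl I) := ⟨Fl.pt (Classical.arbitrary W)⟩
  rw [dist_eq fd fd_self (fd_step hI)]
  cases x <;> cases y <;> simp only [fd] <;> split_ifs <;> omega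

/-- The flag graph of a linear space is `2`-connected if all lines have at least two points and no
line contains all points. -/
theorem twoConnected_FG (hI : Lin I) (h2 : ∀ (w : W) (l : Ln), I w l → ∃ w', w' ≠ w ∧ I w' l)
    (h3 : ∀ l, ∃ w, ¬I w l) (hW : ∃ x y z : W, x ≠ y ∧ x ≠ z ∧ y ≠ z) : TwoConnected (FG I) := by
  classical
  obtain ⟨x0, y0, z0, hxy, hxz, hyz⟩ := hW
  haveI : Nonempty W := ⟨x0⟩
  have hinj : Function.Injective (fun w : W => (Fl.pt w : Fl I)) := by
    intro a b h
    simpa using h
  refine ⟨⟨Fl.pt x0, Fl.pt y0, Fl.pt z0, hinj.ne hxy, hinj.ne hxz, hinj.ne hyz⟩,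
    (geodetic_FG hI).1, fun x => ?_⟩
  -- the graph without `x`
  set G' := (FG I).induce {x}ᶜ with hG'
  have hmk : ∀ {a b : Fl I} (ha : a ∈ ({x}ᶜ : Set (Fl I))) (hb : b ∈ ({x}ᶜ : Set (Fl I))),
      (FG I).Adj a b → G'.Reachable ⟨a, ha⟩ ⟨b, hb⟩ := by
    intro a b ha hb hab
    exact SimpleGraph.Adj.reachable (show G'.Adj ⟨a, ha⟩ ⟨b, hb⟩ from hab)
  have hmem : ∀ {a : Fl I}, a ≠ x → a ∈ ({x}ᶜ : Set (Fl I)) := fun h => h
  -- two points whose flags on the common line are not removed
  have hline : ∀ {p q : W} {l : Ln} (hp : I p l) (hq : I q l) (_ : p ≠ q)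
      (h1 : Fl.fl p l hp ≠ x) (h2 : Fl.fl q l hq ≠ x) (h3 : Fl.pt p ≠ x) (h4 : Fl.pt q ≠ x),
      G'.Reachable ⟨Fl.pt p, hmem h3⟩ ⟨Fl.pt q, hmem h4⟩ := by
    intro p q l hp hq hpq h1 h2 h3 h4
    exact ((hmk (hmem h3) (hmem h1) rfl).trans (hmk (hmem h1) (hmem h2) ⟨rfl, hpq⟩)).trans
      (hmk (hmem h2) (hmem h4) rfl)
  -- all points which are not removed are connected
  have hpts : ∀ {p q : W} (h3 : Fl.pt p ≠ x) (h4 : Fl.pt q ≠ x),
      G'.Reachable ⟨Fl.pt p, hmem h3⟩ ⟨Fl.pt q, hmem h4⟩ := by
    intro p q hp hq
    by_cases hpq : p = q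
    · subst hpq
      exact SimpleGraph.Reachable.refl _
    · cases x with
      | pt x =>
        obtain ⟨l, hl1, hl2⟩ := hI.ex p q hpq
        exact hline hl1 hl2 hpq (by simp) (by simp) hp hq
      | fl x m hx =>
        -- a point which is not on the line `m`
        obtain ⟨r, hr⟩ := h3 m
        have key : ∀ s : W, ∀ hs : Fl.pt s ≠ (Fl.fl x m hx : Fl I), ∀ hr' : Fl.pt r ≠ (Fl.fl x m hx : Fl I),
            G'.Reachable ⟨Fl.pt s, hmem hs⟩ ⟨Fl.pt r, hmem hr'⟩ := by
          intro s hs hr'
          by_cases hsr : s = r
          · subst hsr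
            exact SimpleGraph.Reachable.refl _
          · obtain ⟨l, hl1, hl2⟩ := hI.ex s r hsr
            have hlm : l ≠ m := by
              rintro rfl
              exact hr hl2
            refine hline hl1 hl2 hsr ?_ ?_ hs hr'
            · intro h
              injection h with h1 h2
              exact hlm h2
            · intro h
              injection h with h1 h2
              exact hlm h2
        exact (key p hp (by simp)).trans (key q hq (by simp)).symm
  -- each vertex is connected to some point
  have hall : ∀ a : Fl I, ∀ ha : a ≠ x, ∃ (p : W) (hp : Fl.pt p ≠ x),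
      G'.Reachable ⟨a, hmem ha⟩ ⟨Fl.pt p, hmem hp⟩ := by
    intro a ha
    cases a with
    | pt p => exact ⟨p, ha, SimpleGraph.Reachable.refl _⟩
    | fl p l hp =>
      by_cases hpx : Fl.pt p = x
      · obtain ⟨q, hqp, hq⟩ := h2 p l hp
        have h4 : Fl.fl q l hq ≠ x := by
          rw [← hpx]
          simp
        have h5 : Fl.pt q ≠ x := by
          rw [← hpx]
          intro h
          exact hqp (hinj h)
        exact ⟨q, h5, (hmk (hmem ha) (hmem h4) ⟨rfl, hqp.symm⟩).trans (hmk (hmem h4) (hmem h5) rfl)⟩
      · exact ⟨p, hpx, hmk (hmem ha) (hmem hpx) rfl⟩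
  haveI : Nonempty ↥({x}ᶜ : Set (Fl I)) := by
    by_cases h : Fl.pt x0 = x
    · refine ⟨⟨Fl.pt y0, ?_⟩⟩
      intro h'
      rw [← h] at h'
      exact hxy (hinj h').symm
    · exact ⟨⟨Fl.pt x0, h⟩⟩
  refine ⟨?_⟩
  rintro ⟨a, ha⟩ ⟨b, hb⟩
  obtain ⟨p, hp, h1⟩ := hall a ha
  obtain ⟨q, hq, h2⟩ := hall b hb
  exact (h1.trans (hpts hp hq)).trans h2.symm

end Pool.Agent.Q230.GD
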