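import Mathlib

/-!
# Geodetic graphs
-/

set_option autoImplicit false

namespace Pool.Agent.Q230.GD

/-- A graph is geodetic if it is connected and each pair of vertices is joined by exactly one
shortest path. -/
def Geodetic {V : Type} (G : SimpleGraph V) : Prop :=
  G.Connected ∧ ∀ u v : V, ∃! p : G.Walk u v, p.IsPath ∧ p.length = G.dist u v

/-- A graph is `2`-connected if it has at least three vertices, is connected and stays connected
when any one of its vertices is removed. -/
def TwoConnected {V : Type} (G : SimpleGraph V) : Prop :=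
  (∃ x y z : V, x ≠ y ∧ x ≠ z ∧ y ≠ z) ∧ G.Connected ∧ ∀ x : V, (G.induce {x}ᶜ).Connected

section

variable {V : Type} {G : SimpleGraph V} (d : V → V → ℕ)
  (h0 : ∀ v, d v v = 0)
  (h1 : ∀ u v, u ≠ v → ∃ w, G.Adj u w ∧ d w v + 1 = d u v ∧
    ∀ w', G.Adj u w' → d w' v + 1 ≤ d u v → w' = w)

include h0 h1

theorem d_le {u v : V} (p : G.Walk u v) : d u v ≤ p.length := by
  induction p with
  | nil => rw [h0]; exact Nat.zero_le _
  | @cons u w v h p ih =>
    rw [SimpleGraph.Walk.length_cons]
    by_cases huv : u = v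
    · rw [huv, h0]; exact Nat.zero_le _
    · obtain ⟨x, -, -, hx3⟩ := h1 u v huv
      by_cases hle : d w v + 1 ≤ d u v
      · obtain ⟨x, -, hx2, hx3⟩ := h1 u v huv
        have := hx3 w h hle
        have hdw : d w v = d x v := by rw [this]
        omega
      · omega

theorem exists_walk (k : ℕ) : ∀ u v : V, d u v = k → ∃ p : G.Walk u v, p.length = k := by
  induction k with
  | zero =>
    intro u v h
    by_cases huv : u = v
    · subst huv
      exact ⟨SimpleGraph.Walk.nil, rfl⟩
    · obtain ⟨w, -, h2, -⟩ := h1 u v huv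
      omega
  | succ k ih =>
    intro u v h
    by_cases huv : u = v
    · rw [huv, h0] at h
      omega
    · obtain ⟨w, h2, h3, -⟩ := h1 u v huv
      obtain ⟨p, hp⟩ := ih w v (by omega)
      exact ⟨SimpleGraph.Walk.cons h2 p, by rw [SimpleGraph.Walk.length_cons, hp]⟩

theorem walk_unique {u v : V} (p q : G.Walk u v) (hp : p.length = d u v) (hq : q.length = d u v) :
    p = q := by
  induction p with
  | nil =>
    rw [h0] at hq
    cases q with
    | nil => rfl
    | cons h q => simp at hq
  | @cons u w v h p ih =>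
    rw [SimpleGraph.Walk.length_cons] at hp
    have huv : u ≠ v := by
      rintro rfl
      rw [h0] at hp
      omega
    cases q with
    | nil => exact absurd rfl huv
    | @cons _ w' _ h' q =>
      rw [SimpleGraph.Walk.length_cons] at hq
      obtain ⟨x, hx1, hx2, hx3⟩ := h1 u v huv
      have e1 : w = x := hx3 w h (by have := d_le d h0 h1 p; omega)
      have e2 : w' = x := hx3 w' h' (by have := d_le d h0 h1 q; omega)
      subst e1
      subst e2
      rw [ih q (by omega) (by omega)]

theorem connected_of [Nonempty V] : G.Connected := ⟨fun u v => by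
    obtain ⟨p, -⟩ := exists_walk d h0 h1 _ u v rfl
    exact ⟨p⟩⟩

theorem dist_eq [Nonempty V] (u v : V) : G.dist u v = d u v := by
  apply le_antisymm
  · obtain ⟨p, hp⟩ := exists_walk d h0 h1 _ u v rfl
    rw [← hp]
    exact SimpleGraph.dist_le p
  · obtain ⟨p, hp⟩ := (connected_of d h0 h1).exists_walk_length_eq_dist u v
    rw [← hp]
    exact d_le d h0 h1 p

theorem geodetic_of [Nonempty V] : Geodetic G := by
  have hc : G.Connected := connected_of d h0 h1
  have hd : ∀ u v, G.dist u v = d u v := dist_eq d h0 h1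
  refine ⟨hc, fun u v => ?_⟩
  obtain ⟨p, hpp, hp⟩ := hc.exists_path_of_dist u v
  refine ⟨p, ⟨hpp, hp⟩, ?_⟩
  rintro q ⟨-, hq⟩
  exact walk_unique d h0 h1 q p (by rw [hq, hd]) (by rw [hp, hd])

end

theorem dist_iso {V W : Type} {G : SimpleGraph V} {H : SimpleGraph W} (e : G ≃g H)
    (hc : G.Connected) (u v : W) : H.dist u v = G.dist (e.symm u) (e.symm v) := by
  have hc' : H.Connected := e.connected_iff.1 hc
  apply le_antisymm
  · obtain ⟨p, hp⟩ := hc.exists_walk_length_eq_dist (e.symm u) (e.symm v)
    have h1 : H.dist (e (e.symm u)) (e (e.symm v)) ≤ G.dist (e.symm u) (e.symm v) := by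
      rw [← hp]
      have := SimpleGraph.dist_le (p.map e.toHom)
      rw [SimpleGraph.Walk.length_map] at this
      exact this
    rwa [e.apply_symm_apply, e.apply_symm_apply] at h1
  · obtain ⟨p, hp⟩ := hc'.exists_walk_length_eq_dist u v
    rw [← hp]
    have := SimpleGraph.dist_le (p.map e.symm.toHom)
    rw [SimpleGraph.Walk.length_map] at this
    exact this

theorem Geodetic.of_iso {V W : Type} {G : SimpleGraph V} {H : SimpleGraph W} (e : G ≃g H)
    (h : Geodetic G) : Geodetic H := by
  obtain ⟨hc, hu⟩ := h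
  have hc' : H.Connected := e.connected_iff.1 hc
  refine ⟨hc', fun u v => ?_⟩
  have hdist := dist_iso e hc u v
  obtain ⟨p, ⟨-, hp⟩, hpu⟩ := hu (e.symm u) (e.symm v)
  obtain ⟨q, hqp, hq⟩ := hc'.exists_path_of_dist u v
  refine ⟨q, ⟨hqp, hq⟩, ?_⟩
  rintro q' ⟨hq'p, hq'⟩
  have hinj : Function.Injective e.symm.toHom := e.symm.injective
  have k1 := hpu (q.map e.symm.toHom) ⟨hqp.map hinj, by
    rw [SimpleGraph.Walk.length_map, hq, hdist]⟩
  have k2 := hpu (q'.map e.symm.toHom) ⟨hq'p.map hinj, by
    rw [SimpleGraph.Walk.length_map, hq', hdist]⟩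
  exact SimpleGraph.Walk.map_injective_of_injective hinj u v (k2.trans k1.symm)

theorem TwoConnected.of_iso {V W : Type} {G : SimpleGraph V} {H : SimpleGraph W} (e : G ≃g H)
    (h : TwoConnected G) : TwoConnected H := by
  obtain ⟨⟨x, y, z, hxy, hxz, hyz⟩, hc, h2⟩ := h
  refine ⟨⟨e x, e y, e z, e.injective.ne hxy, e.injective.ne hxz, e.injective.ne hyz⟩,
    e.connected_iff.1 hc, fun x => ?_⟩
  have h3 := h2 (e.symm x)
  have ei : G.induce {e.symm x}ᶜ ≃g H.induce {x}ᶜ :=
    { toFun := fun v => ⟨e v.1, by
        have := v.2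
        simp only [Set.mem_compl_iff, Set.mem_singleton_iff] at this ⊢
        intro h
        have h' := congrArg e.symm h
        rw [e.symm_apply_apply] at h'
        exact this h'⟩
      invFun := fun v => ⟨e.symm v.1, by
        have := v.2
        simp only [Set.mem_compl_iff, Set.mem_singleton_iff] at this ⊢
        intro h
        exact this (e.symm.injective h)⟩
      left_inv := fun v => Subtype.ext (e.symm_apply_apply _)
      right_inv := fun v => Subtype.ext (e.apply_symm_apply _)
      map_rel_iff' := fun {a b} => e.map_adj_iff }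
  exact ei.connected_iff.1 h3

end Pool.Agent.Q230.GD
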