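import Pool.Agent.Q230.GD.Flag

/-!
# The linear space of a system of big lines, and its reconstruction from the flag graph

Given a system of big lines, any two of which have at most one common point, the pairs of points
which are not on a common big line are taken as further lines. The big lines have at least three
points, so their flags are the vertices of the flag graph which are in triangles.
-/

set_option autoImplicit false

namespace Pool.Agent.Q230.GD

/-- two big lines have at most one common point, and each big line has three points -/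
structure PL {U W : Type} (A : U → W → Prop) : Prop where
  un : ∀ (p q : W) (u v : U), p ≠ q → A u p → A u q → A v p → A v q → u = v
  three : ∀ (u : U) (w : W), ∃ w1 w2, A u w1 ∧ A u w2 ∧ w1 ≠ w2 ∧ w1 ≠ w ∧ w2 ≠ w

/-- the incidence relation of the points with all lines -/
def Inc {U W : Type} (A : U → W → Prop) (w : W) : U ⊕ Sym2 W → Prop
  | Sum.inl u => A u w
  | Sum.inr s => w ∈ s ∧ ¬s.IsDiag ∧ ¬∃ u, ∀ x ∈ s, A u x

variable {U W U' W' : Type} {A : U → W → Prop} {A' : U' → W' → Prop}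

theorem lin (hA : PL A) : Lin (Inc A) := by
  constructor
  · intro p q hpq
    by_cases h : ∃ u, A u p ∧ A u q
    · obtain ⟨u, h1, h2⟩ := h
      exact ⟨Sum.inl u, h1, h2⟩
    · have h' : ¬∃ u, ∀ x ∈ s(p, q), A u x := by
        rintro ⟨u, hu⟩
        exact h ⟨u, hu p (Sym2.mem_mk_left p q), hu q (Sym2.mem_mk_right p q)⟩
      have hd : ¬(s(p, q)).IsDiag := by
        rw [Sym2.mk_isDiag_iff]; exact hpq
      exact ⟨Sum.inr s(p, q), ⟨Sym2.mem_mk_left p q, hd, h'⟩, ⟨Sym2.mem_mk_right p q, hd, h'⟩⟩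
  · rintro p q (u | s) (v | t) hpq h1 h2 h3 h4
    · rw [hA.un p q u v hpq h1 h2 h3 h4]
    · exfalso
      refine h3.2.2 ⟨u, fun x hx => ?_⟩
      rw [(Sym2.mem_and_mem_iff hpq).1 ⟨h3.1, h4.1⟩, Sym2.mem_iff] at hx
      rcases hx with rfl | rfl
      · exact h1
      · exact h2
    · exfalso
      refine h1.2.2 ⟨v, fun x hx => ?_⟩
      rw [(Sym2.mem_and_mem_iff hpq).1 ⟨h1.1, h2.1⟩, Sym2.mem_iff] at hx
      rcases hx with rfl | rfl
      · exact h3
      · exact h4
    · rw [(Sym2.mem_and_mem_iff hpq).1 ⟨h1.1, h2.1⟩, (Sym2.mem_and_mem_iff hpq).1 ⟨h3.1, h4.1⟩]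

theorem two_points (hA : PL A) (w : W) (l : U ⊕ Sym2 W) (h : Inc A w l) :
    ∃ w', w' ≠ w ∧ Inc A w' l := by
  cases l with
  | inl u =>
    obtain ⟨w1, w2, h1, h2, h3, h4, h5⟩ := hA.three u w
    exact ⟨w1, h4, h1⟩
  | inr s =>
    obtain ⟨y, rfl⟩ := Sym2.mem_iff_exists.1 h.1
    refine ⟨y, ?_, Sym2.mem_mk_right w y, h.2⟩
    rintro rfl
    exact h.2.1 (Sym2.mk_isDiag_iff.2 rfl)

/-- vertices in triangles -/
def Tri {V : Type} (G : SimpleGraph V) (x : V) : Prop := ∃ y z, G.Adj x y ∧ G.Adj x z ∧ G.Adj y z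

theorem Tri.map {V V' : Type} {G : SimpleGraph V} {G' : SimpleGraph V'} (e : G ≃g G') {x : V}
    (h : Tri G x) : Tri G' (e x) := by
  obtain ⟨y, z, h1, h2, h3⟩ := h
  exact ⟨e y, e z, e.map_adj_iff.2 h1, e.map_adj_iff.2 h2, e.map_adj_iff.2 h3⟩

theorem tri_big (hA : PL A) {u : U} {w : W} (h : Inc A w (Sum.inl u)) :
    Tri (FG (Inc A)) (Fl.fl w (Sum.inl u) h) := by
  obtain ⟨w1, w2, h1, h2, h3, h4, h5⟩ := hA.three u w
  exact ⟨Fl.fl w1 (Sum.inl u) h1, Fl.fl w2 (Sum.inl u) h2, ⟨rfl, h4.symm⟩, ⟨rfl, h5.symm⟩,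
    ⟨rfl, h3⟩⟩

theorem big_of_tri {x : Fl (Inc A)} (h : Tri (FG (Inc A)) x) :
    ∃ (u : U) (w : W) (h : Inc A w (Sum.inl u)), x = Fl.fl w (Sum.inl u) h := by
  obtain ⟨y, z, h1, h2, h3⟩ := h
  cases x with
  | pt w =>
    exfalso
    cases y with
    | pt w1 => exact h1
    | fl w1 l1 g1 =>
      cases z with
      | pt w2 => exact h2
      | fl w2 l2 g2 =>
        have e1 : w = w1 := h1
        have e2 : w = w2 := h2
        exact h3.2 (e1.symm.trans e2)
  | fl w l g =>
    cases l with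
    | inl u => exact ⟨u, w, g, rfl⟩
    | inr s =>
      exfalso
      cases y with
      | pt w1 =>
        cases z with
        | pt w2 => exact h3
        | fl w2 l2 g2 =>
          have e1 : w = w1 := h1
          have e2 : w1 = w2 := h3
          exact h2.2 (e1.trans e2)
      | fl w1 l1 g1 =>
        cases z with
        | pt w2 =>
          have e1 : w = w2 := h2
          have e2 : w1 = w2 := h3
          exact h1.2 (e1.trans e2.symm)
        | fl w2 l2 g2 =>
          obtain ⟨rfl, n1⟩ := h1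
          obtain ⟨rfl, n2⟩ := h2
          have n3 := h3.2
          have e := (Sym2.mem_and_mem_iff n1).1 ⟨g.1, g1.1⟩
          have g2' := g2.1
          rw [e, Sym2.mem_iff] at g2'
          rcases g2' with e3 | e3
          · exact n2 e3.symm
          · exact n3 e3.symm

/-- An isomorphism of flag graphs maps the big lines to big lines. -/
theorem exists_sigma [Nonempty W] (hA : PL A) (e : FG (Inc A) ≃g FG (Inc A')) :
    ∃ σ : U → U', ∀ (u : U) (w : W) (h : Inc A w (Sum.inl u)),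
      ∃ (w' : W') (h' : Inc A' w' (Sum.inl (σ u))),
        e (Fl.fl w (Sum.inl u) h) = Fl.fl w' (Sum.inl (σ u)) h' := by
  have w0 : W := Classical.arbitrary W
  have hex : ∀ u : U, ∃ u' : U', ∀ (w : W) (h : Inc A w (Sum.inl u)),
      ∃ (w' : W') (h' : Inc A' w' (Sum.inl u')),
        e (Fl.fl w (Sum.inl u) h) = Fl.fl w' (Sum.inl u') h' := by
    intro u
    obtain ⟨w1, -, h1, -⟩ := hA.three u w0
    obtain ⟨u', w1', h1', e1⟩ := big_of_tri ((tri_big hA (u := u) (w := w1) h1).map e)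
    refine ⟨u', fun w h => ?_⟩
    by_cases hw : w = w1
    · subst hw
      exact ⟨w1', h1', e1⟩
    · obtain ⟨u'', w', h', e2⟩ := big_of_tri ((tri_big hA (u := u) (w := w) h).map e)
      have hadj : (FG (Inc A)).Adj (Fl.fl w (Sum.inl u) h) (Fl.fl w1 (Sum.inl u) h1) := ⟨rfl, hw⟩
      have hadj' := e.map_adj_iff.2 hadj
      rw [e1, e2] at hadj'
      have hu : u'' = u' := Sum.inl_injective hadj'.1
      subst hu
      exact ⟨w', h', e2⟩
  choose σ hσ using hex
  exact ⟨σ, hσ⟩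

/-- two big lines meet -/
def Meet (A : U → W → Prop) (u v : U) : Prop := u ≠ v ∧ ∃ w, A u w ∧ A v w

theorem meet_of (hA : PL A) {e : FG (Inc A) ≃g FG (Inc A')} {σ : U → U'}
    (hσ : ∀ (u : U) (w : W) (h : Inc A w (Sum.inl u)),
      ∃ (w' : W') (h' : Inc A' w' (Sum.inl (σ u))),
        e (Fl.fl w (Sum.inl u) h) = Fl.fl w' (Sum.inl (σ u)) h')
    (hinj : Function.Injective σ) {u v : U} (h : Meet A u v) : Meet A' (σ u) (σ v) := by
  obtain ⟨huv, w, h1, h2⟩ := h
  refine ⟨hinj.ne huv, ?_⟩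
  obtain ⟨w1, g1, e1⟩ := hσ u w h1
  obtain ⟨w2, g2, e2⟩ := hσ v w h2
  have a1 : (FG (Inc A)).Adj (Fl.pt w) (Fl.fl w (Sum.inl u) h1) := rfl
  have a2 : (FG (Inc A)).Adj (Fl.pt w) (Fl.fl w (Sum.inl v) h2) := rfl
  have b1 := e.map_adj_iff.2 a1
  have b2 := e.map_adj_iff.2 a2
  rw [e1] at b1
  rw [e2] at b2
  cases hz : e (Fl.pt w) with
  | pt w' =>
    rw [hz] at b1 b2
    have c1 : w' = w1 := b1
    have c2 : w' = w2 := b2
    subst c1
    subst c2
    exact ⟨w', g1, g2⟩
  | fl w' l g =>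
    exfalso
    rw [hz] at b1 b2
    have c := b1.1.symm.trans b2.1
    exact huv (hinj (Sum.inl_injective c))

/-- **Reconstruction.** -/
theorem recon [Nonempty W] [Nonempty W'] (hA : PL A) (hA' : PL A')
    (e : FG (Inc A) ≃g FG (Inc A')) :
    ∃ σ : U ≃ U', ∀ u v, Meet A u v ↔ Meet A' (σ u) (σ v) := by
  obtain ⟨σ, hσ⟩ := exists_sigma hA e
  obtain ⟨τ, hτ⟩ := exists_sigma hA' e.symm
  have h1 : ∀ u, τ (σ u) = u := by
    intro u
    obtain ⟨w, -, g, -⟩ := hA.three u (Classical.arbitrary W)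
    obtain ⟨w', g', e1⟩ := hσ u w g
    obtain ⟨w'', g'', e2⟩ := hτ (σ u) w' g'
    rw [← e1, e.symm_apply_apply] at e2
    injection e2 with e3 e4
    exact (Sum.inl_injective e4).symm
  have h2 : ∀ u, σ (τ u) = u := by
    intro u
    obtain ⟨w, -, g, -⟩ := hA'.three u (Classical.arbitrary W')
    obtain ⟨w', g', e1⟩ := hτ u w g
    obtain ⟨w'', g'', e2⟩ := hσ (τ u) w' g'
    rw [← e1, e.apply_symm_apply] at e2
    injection e2 with e3 e4
    exact (Sum.inl_injective e4).symm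
  have hi1 : Function.Injective σ := fun a b h => by rw [← h1 a, ← h1 b, h]
  have hi2 : Function.Injective τ := fun a b h => by rw [← h2 a, ← h2 b, h]
  refine ⟨⟨σ, τ, h1, h2⟩, fun u v => ⟨fun h => meet_of hA hσ hi1 h, fun h => ?_⟩⟩
  have := meet_of hA' hτ hi2 h
  change Meet A (τ (σ u)) (τ (σ v)) at this
  rwa [h1, h1] at this

/-- the action of a bijection on unordered pairs -/
def symE (β : W ≃ W') : Sym2 W ≃ Sym2 W' where
  toFun := Sym2.map β
  invFun := Sym2.map β.symm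
  left_inv := fun s => by rw [Sym2.map_map, β.symm_comp_self, Sym2.map_id, id]
  right_inv := fun s => by rw [Sym2.map_map, β.self_comp_symm, Sym2.map_id, id]

/-- the action of isomorphisms on flag graphs -/
def flE {Ln Ln' : Type} {I : W → Ln → Prop} {I' : W' → Ln' → Prop} (β : W ≃ W') (γ : Ln ≃ Ln')
    (h : ∀ w l, I w l ↔ I' (β w) (γ l)) : FG I ≃g FG I' where
  toFun
    | Fl.pt w => Fl.pt (β w)
    | Fl.fl w l g => Fl.fl (β w) (γ l) ((h w l).1 g)
  invFun
    | Fl.pt w => Fl.pt (β.symm w)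
    | Fl.fl w l g => Fl.fl (β.symm w) (γ.symm l) ((h _ _).2 (by
        rw [β.apply_symm_apply, γ.apply_symm_apply]; exact g))
  left_inv := by
    rintro (w | ⟨w, l, g⟩)
    · simp
    · simp
  right_inv := by
    rintro (w | ⟨w, l, g⟩)
    · simp
    · simp
  map_rel_iff' := by
    rintro (w | ⟨w, l, g⟩) (w' | ⟨w', l', g'⟩)
    · exact Iff.rfl
    · exact β.injective.eq_iff
    · exact β.injective.eq_iff
    · exact and_congr γ.injective.eq_iff β.injective.ne_iff

theorem mapIso (α : U ≃ U') (β : W ≃ W') (h : ∀ u w, A u w ↔ A' (α u) (β w)) :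
    Nonempty (FG (Inc A) ≃g FG (Inc A')) := by
  refine ⟨flE β (Equiv.sumCongr α (symE β)) ?_⟩
  rintro w (u | s)
  · exact h u w
  · show (w ∈ s ∧ ¬s.IsDiag ∧ ¬∃ u, ∀ x ∈ s, A u x) ↔
      (β w ∈ Sym2.map β s ∧ ¬(Sym2.map β s).IsDiag ∧ ¬∃ u, ∀ x ∈ Sym2.map β s, A' u x)
    refine and_congr ?_ (and_congr ?_ ?_)
    · rw [Sym2.mem_map]
      constructor
      · intro hw
        exact ⟨w, hw, rfl⟩
      · rintro ⟨a, ha, hab⟩
        rwa [β.injective hab] at ha
    · rw [Sym2.isDiag_map β.injective]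
    · rw [not_iff_not]
      constructor
      · rintro ⟨u, hu⟩
        refine ⟨α u, fun x hx => ?_⟩
        rw [Sym2.mem_map] at hx
        obtain ⟨a, ha, rfl⟩ := hx
        exact (h u a).1 (hu a ha)
      · rintro ⟨u, hu⟩
        refine ⟨α.symm u, fun x hx => ?_⟩
        have := hu (β x) (Sym2.mem_map.2 ⟨x, hx, rfl⟩)
        rw [h, α.apply_symm_apply]
        exact this

end Pool.Agent.Q230.GD
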