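import Pool.Agent.Q230.GD.Spc
import Pool.Agent.H671R2.GraphEnc
import Pool.Agent.H671R2.PolyAuto
import Pool.Agent.NPC.Dec
import Pool.Agent.H642R2.TMSim

/-!
# The reduction
-/

set_option autoImplicit false

namespace Pool.Agent.Q230.GD

open Pool.Agent.NPC Pool.Agent.NPC.R671

/-- The graph isomorphism problem: the input consists of the adjacency matrices of two finite
graphs, and the question is whether the graphs are isomorphic. -/
def GraphIso (p : List (List Bool) × List (List Bool)) : Prop :=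
  ∃ (n m : ℕ) (X : SimpleGraph (Fin n)) (Y : SimpleGraph (Fin m)),
    adjMatrix X = p.1 ∧ adjMatrix Y = p.2 ∧ Nonempty (X ≃g Y)

/-! ### The computation -/

/-- labels of points -/
abbrev PL3 := ℕ × ℕ × ℕ

/-- labels of vertices -/
abbrev Lb := ℕ × PL3 × PL3

/-- entries of a matrix -/
def ent (M : List (List Bool)) (i j : ℕ) : Bool := (M.getD i []).getD j false

/-- the list of the points -/
def wl (M : List (List Bool)) : List PL3 :=
  ((List.range M.length ×ˢ List.range M.length).filter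
      (fun p => decide (p.1 < p.2) && ent M p.1 p.2)).map (fun p => ((0, p.1, p.2) : PL3)) ++
    (List.range (M.length + 1) ×ˢ List.range 3).map (fun p => ((1, p.1, p.2) : PL3))

/-- incidence of a vertex (big line) and a point -/
def incB (u : ℕ) (z : PL3) : Bool :=
  (decide (z.1 = 0) && (decide (u = z.2.1) || decide (u = z.2.2))) ||
    (decide (z.1 = 1) && decide (z.2.1 = u + 1))

/-- the list of the vertices -/
def verts (M : List (List Bool)) : List Lb :=
  (wl M).map (fun z => ((0, z, (0, 0, 0)) : Lb)) ++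
  ((((wl M) ×ˢ List.range M.length).filter (fun q => incB q.2 q.1)).map
    (fun q => ((1, q.1, (q.2, 0, 0)) : Lb)) ++
  (((wl M) ×ˢ (wl M)).filter (fun q => !(decide (q.1 = q.2)) &&
    !((List.range M.length).any (fun u => incB u q.1 && incB u q.2)))).map
      (fun q => ((2, q.1, q.2) : Lb)))

/-- adjacency -/
def adB (a b : Lb) : Bool :=
  (decide (a.1 = 0) && (!(decide (b.1 = 0)) && decide (a.2.1 = b.2.1))) ||
  ((decide (b.1 = 0) && (!(decide (a.1 = 0)) && decide (a.2.1 = b.2.1))) ||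
  ((decide (a.1 = 1) && (decide (b.1 = 1) && (decide (a.2.2 = b.2.2) &&
    !(decide (a.2.1 = b.2.1))))) ||
  (decide (a.1 = 2) && (decide (b.1 = 2) && (decide (a.2.1 = b.2.2) &&
    (decide (a.2.2 = b.2.1) && !(decide (a.2.1 = b.2.1))))))))

/-- the output matrix -/
def out (M : List (List Bool)) : List (List Bool) :=
  (verts M).map (fun u => (verts M).map (fun w => adB u w))

theorem adB_symm (a b : Lb) : adB a b = adB b a := by
  rw [Bool.eq_iff_iff]
  unfold adB
  simp only [Bool.or_eq_true, Bool.and_eq_true, decide_eq_true_eq, Bool.not_eq_true',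
    decide_eq_false_iff_not]
  constructor
  · rintro (⟨h1, h2, h3⟩ | ⟨h1, h2, h3⟩ | ⟨h1, h2, h3, h4⟩ | ⟨h1, h2, h3, h4, h5⟩)
    · exact Or.inr (Or.inl ⟨h1, h2, h3.symm⟩)
    · exact Or.inl ⟨h1, h2, h3.symm⟩
    · exact Or.inr (Or.inr (Or.inl ⟨h2, h1, h3.symm, fun h => h4 h.symm⟩))
    · exact Or.inr (Or.inr (Or.inr ⟨h2, h1, h4.symm, h3.symm, fun h => h5 h.symm⟩))
  · rintro (⟨h1, h2, h3⟩ | ⟨h1, h2, h3⟩ | ⟨h1, h2, h3, h4⟩ | ⟨h1, h2, h3, h4, h5⟩)
    · exact Or.inr (Or.inl ⟨h1, h2, h3.symm⟩)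
    · exact Or.inl ⟨h1, h2, h3.symm⟩
    · exact Or.inr (Or.inr (Or.inl ⟨h2, h1, h3.symm, fun h => h4 h.symm⟩))
    · exact Or.inr (Or.inr (Or.inr ⟨h2, h1, h4.symm, h3.symm, fun h => h5 h.symm⟩))

theorem adB_irrefl (a : Lb) : adB a a = false := by
  rw [Bool.eq_false_iff]
  unfold adB
  simp only [ne_eq, Bool.or_eq_true, Bool.and_eq_true, decide_eq_true_eq, Bool.not_eq_true',
    decide_eq_false_iff_not]
  rintro (⟨h1, h2, h3⟩ | ⟨h1, h2, h3⟩ | ⟨h1, h2, h3, h4⟩ | ⟨h1, h2, h3, h4, h5⟩)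
  · exact h2 h1
  · exact h2 h1
  · exact h4 trivial
  · exact h5 trivial

/-! ### Correctness -/

section

variable {n : ℕ} (X : SimpleGraph (Fin n))

/-- the label of a point -/
def cw : Wt X → PL3
  | Sum.inl p => (0, p.1.1, p.1.2)
  | Sum.inr (none, k) => (1, 0, k)
  | Sum.inr (some i, k) => (1, i + 1, k)

theorem cw_inj : Function.Injective (cw X) := by
  rintro (p | ⟨o, k⟩) (q | ⟨o', k'⟩) h
  · simp only [cw, Prod.mk.injEq, true_and] at h
    have : p = q := Subtype.ext (Prod.ext (Fin.ext h.1) (Fin.ext h.2))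
    rw [this]
  · exfalso
    cases o' <;> simp [cw] at h
  · exfalso
    cases o <;> simp [cw] at h
  · cases o with
    | none =>
      cases o' with
      | none =>
        simp only [cw, Prod.mk.injEq, true_and] at h
        rw [Fin.ext h]
      | some j => simp [cw] at h
    | some i =>
      cases o' with
      | none => simp [cw] at h
      | some j =>
        simp only [cw, Prod.mk.injEq, true_and, Nat.add_right_cancel_iff] at h
        rw [Fin.ext h.1, Fin.ext h.2]

/-- the label of a vertex -/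
noncomputable def code : Fl (Inc (AA X)) → Lb
  | Fl.pt w => (0, cw X w, (0, 0, 0))
  | Fl.fl w (Sum.inl u) _ => (1, cw X w, ((u : ℕ), 0, 0))
  | Fl.fl w (Sum.inr _) h => (2, cw X w, cw X (Sym2.Mem.other h.1))

theorem other_eq {W : Type} {w w' : W} {s : Sym2 W} (h : w ∈ s) (e : s = s(w, w')) :
    Sym2.Mem.other h = w' := by
  have h1 := (Sym2.other_spec h).trans e
  exact Sym2.congr_right.1 h1

theorem code_inj : Function.Injective (code X) := by
  rintro (w | ⟨w, u | s, h⟩) (w' | ⟨w', u' | s', h'⟩) e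
  · simp only [code, Prod.mk.injEq, true_and, and_true] at e
    rw [cw_inj X e]
  · exact absurd (congrArg Prod.fst e) (by simp [code])
  · exact absurd (congrArg Prod.fst e) (by simp [code])
  · exact absurd (congrArg Prod.fst e) (by simp [code])
  · simp only [code, Prod.mk.injEq, true_and, and_true] at e
    have h1 := cw_inj X e.1
    have h2 := Fin.ext e.2
    subst h1
    subst h2
    rfl
  · exact absurd (congrArg Prod.fst e) (by simp [code])
  · exact absurd (congrArg Prod.fst e) (by simp [code])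
  · exact absurd (congrArg Prod.fst e) (by simp [code])
  · simp only [code, Prod.mk.injEq, true_and] at e
    have h1 := cw_inj X (Prod.ext_iff.2 ⟨congrArg Prod.fst e.1, congrArg Prod.snd e.1⟩)
    have h2 := cw_inj X (Prod.ext_iff.2 ⟨congrArg Prod.fst e.2, congrArg Prod.snd e.2⟩)
    subst h1
    have h3 : s = s' := by
      rw [← Sym2.other_spec h.1, ← Sym2.other_spec h'.1, h2]
    subst h3
    rfl

theorem adB_code (a b : Fl (Inc (AA X))) :
    adB (code X a) (code X b) = true ↔ (GG X).Adj a b := by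
  have hw : ∀ w w' : Wt X, cw X w = cw X w' ↔ w = w' := fun w w' => (cw_inj X).eq_iff
  rcases a with w | ⟨w, u | s, h⟩ <;> rcases b with w' | ⟨w', u' | s', h'⟩
  · show _ ↔ False
    simp [adB, code]
  · show _ ↔ w = w'
    simp [adB, code, hw]
  · show _ ↔ w = w'
    simp [adB, code, hw]
  · show _ ↔ w = w'
    simp [adB, code, hw]
  · show _ ↔ Sum.inl u = Sum.inl u' ∧ w ≠ w'
    simp [adB, code, hw, Fin.ext_iff]
  · show _ ↔ Sum.inl u = Sum.inr s' ∧ w ≠ w'
    simp [adB, code]
  · show _ ↔ w = w'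
    simp [adB, code, hw]
  · show _ ↔ Sum.inr s = Sum.inl u' ∧ w ≠ w'
    simp [adB, code]
  · show _ ↔ Sum.inr s = Sum.inr s' ∧ w ≠ w'
    have e1 : adB (code X (Fl.fl w (Sum.inr s) h)) (code X (Fl.fl w' (Sum.inr s') h')) = true ↔
        w = Sym2.Mem.other h'.1 ∧ Sym2.Mem.other h.1 = w' ∧ w ≠ w' := by
      simp [adB, code, hw]
    rw [e1]
    constructor
    · rintro ⟨h1, h2, h3⟩
      refine ⟨?_, h3⟩
      rw [← Sym2.other_spec h.1, ← Sym2.other_spec h'.1, ← h1, h2, Sym2.eq_swap]
    · rintro ⟨h1, h2⟩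
      have h3 : s = s' := Sum.inr_injective h1
      subst h3
      have h4 := (Sym2.mem_and_mem_iff h2).1 ⟨h.1, h'.1⟩
      refine ⟨(other_eq h'.1 (h4.trans Sym2.eq_swap)).symm, other_eq h.1 h4, h2⟩

end

theorem length_adjMatrix {n : ℕ} (X : SimpleGraph (Fin n)) : (adjMatrix X).length = n := by
  simp [adjMatrix]

theorem ent_adjMatrix {n : ℕ} (X : SimpleGraph (Fin n)) (i j : Fin n) :
    ent (adjMatrix X) i j = true ↔ X.Adj i j := by
  unfold ent adjMatrix
  simp

theorem mem_wl {n : ℕ} (X : SimpleGraph (Fin n)) (z : PL3) :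
    z ∈ wl (adjMatrix X) ↔ ∃ w, cw X w = z := by
  unfold wl
  rw [length_adjMatrix]
  simp only [List.mem_append, List.mem_map, List.mem_filter, List.mem_product, List.mem_range,
    Bool.and_eq_true, decide_eq_true_eq, Prod.exists]
  constructor
  · rintro (⟨i, j, ⟨⟨hi, hj⟩, hij, he⟩, rfl⟩ | ⟨i, k, ⟨hi, hk⟩, rfl⟩)
    · exact ⟨Sum.inl ⟨(⟨i, hi⟩, ⟨j, hj⟩), hij, (ent_adjMatrix X ⟨i, hi⟩ ⟨j, hj⟩).1 he⟩, rfl⟩
    · rcases Nat.eq_zero_or_pos i with rfl | h0
      · exact ⟨Sum.inr (none, ⟨k, hk⟩), rfl⟩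
      · obtain ⟨i, rfl⟩ := Nat.exists_eq_add_of_le' h0
        exact ⟨Sum.inr (some ⟨i, by omega⟩, ⟨k, hk⟩), rfl⟩
  · rintro ⟨p | ⟨o, k⟩, rfl⟩
    · exact Or.inl ⟨p.1.1, p.1.2, ⟨⟨p.1.1.2, p.1.2.2⟩, p.2.1, (ent_adjMatrix X _ _).2 p.2.2⟩, rfl⟩
    · cases o with
      | none => exact Or.inr ⟨0, k, ⟨Nat.succ_pos _, k.2⟩, rfl⟩
      | some i => exact Or.inr ⟨i + 1, k, ⟨Nat.succ_lt_succ i.2, k.2⟩, rfl⟩

theorem incB_iff {n : ℕ} (X : SimpleGraph (Fin n)) (u : Fin n) (w : Wt X) :
    incB u (cw X w) = true ↔ AA X u w := by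
  unfold incB
  rcases w with p | ⟨o, k⟩
  · show _ ↔ (u = p.1.1 ∨ u = p.1.2)
    simp [cw, Fin.ext_iff]
  · show _ ↔ (o = some u)
    cases o with
    | none => simp [cw]
    | some i => simp [cw, Fin.ext_iff]

theorem mem_prod {α β : Type} {l : List α} {l' : List β} {q : α × β} :
    q ∈ l ×ˢ l' ↔ q.1 ∈ l ∧ q.2 ∈ l' := by
  obtain ⟨a, b⟩ := q
  exact List.mem_product

theorem mem_verts {n : ℕ} (X : SimpleGraph (Fin n)) (z : Lb) :
    z ∈ verts (adjMatrix X) ↔ ∃ a, code X a = z := by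
  unfold verts
  rw [length_adjMatrix]
  simp only [List.mem_append, List.mem_map, List.mem_filter, mem_prod, List.mem_range]
  constructor
  · rintro (⟨y, hy, rfl⟩ | ⟨q, ⟨⟨hq1, hq2⟩, hinc⟩, rfl⟩ | ⟨q, ⟨⟨hq1, hq2⟩, hinc⟩, rfl⟩)
    · obtain ⟨w, rfl⟩ := (mem_wl X y).1 hy
      exact ⟨Fl.pt w, rfl⟩
    · obtain ⟨w, hw⟩ := (mem_wl X q.1).1 hq1
      obtain ⟨q1, u⟩ := q
      simp only at hw hq2 hinc
      subst hw
      exact ⟨Fl.fl w (Sum.inl ⟨u, hq2⟩) ((incB_iff X ⟨u, hq2⟩ w).1 hinc), rfl⟩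
    · obtain ⟨w, hw⟩ := (mem_wl X q.1).1 hq1
      obtain ⟨w', hw'⟩ := (mem_wl X q.2).1 hq2
      obtain ⟨q1, q2⟩ := q
      simp only at hw hw' hinc
      subst hw
      subst hw'
      simp only [Bool.and_eq_true, Bool.not_eq_true', decide_eq_false_iff_not] at hinc
      obtain ⟨h1, h2⟩ := hinc
      have hne : w ≠ w' := fun h => h1 (by rw [h])
      have h3 : ¬∃ u, ∀ x ∈ s(w, w'), AA X u x := by
        rintro ⟨u, hu⟩
        have : ((List.range n).any fun u => incB u (cw X w) && incB u (cw X w')) = true := by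
          rw [List.any_eq_true]
          refine ⟨u, List.mem_range.2 u.2, ?_⟩
          rw [Bool.and_eq_true, incB_iff, incB_iff]
          exact ⟨hu _ (Sym2.mem_mk_left _ _), hu _ (Sym2.mem_mk_right _ _)⟩
        rw [h2] at this
        exact absurd this (by simp)
      have hI : Inc (AA X) w (Sum.inr s(w, w')) :=
        ⟨Sym2.mem_mk_left _ _, by rw [Sym2.mk_isDiag_iff]; exact hne, h3⟩
      refine ⟨Fl.fl w (Sum.inr s(w, w')) hI, ?_⟩
      simp only [code]
      rw [other_eq hI.1 rfl]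
  · rintro ⟨w | ⟨w, u | s, h⟩, rfl⟩
    · exact Or.inl ⟨cw X w, (mem_wl X _).2 ⟨w, rfl⟩, rfl⟩
    · exact Or.inr (Or.inl ⟨(cw X w, u), ⟨⟨(mem_wl X _).2 ⟨w, rfl⟩, u.2⟩,
        (incB_iff X u w).2 h⟩, rfl⟩)
    · refine Or.inr (Or.inr ⟨(cw X w, cw X (Sym2.Mem.other h.1)), ⟨⟨(mem_wl X _).2 ⟨w, rfl⟩,
        (mem_wl X _).2 ⟨_, rfl⟩⟩, ?_⟩, rfl⟩)
      have hs := Sym2.other_spec h.1
      have hne : w ≠ Sym2.Mem.other h.1 := by
        intro he
        refine h.2.1 ?_
        rw [← hs, Sym2.mk_isDiag_iff]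
        exact he
      simp only [Bool.and_eq_true, Bool.not_eq_true', decide_eq_false_iff_not]
      refine ⟨fun he => hne (cw_inj X he), ?_⟩
      rw [Bool.eq_false_iff]
      intro hany
      rw [List.any_eq_true] at hany
      obtain ⟨u, hu, hu2⟩ := hany
      rw [List.mem_range] at hu
      rw [Bool.and_eq_true] at hu2
      refine h.2.2 ⟨⟨u, hu⟩, fun x hx => ?_⟩
      rw [← hs, Sym2.mem_iff] at hx
      rcases hx with rfl | rfl
      · exact (incB_iff X ⟨u, hu⟩ _).1 hu2.1
      · exact (incB_iff X ⟨u, hu⟩ _).1 hu2.2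

theorem nodup_wl (M : List (List Bool)) : (wl M).Nodup := by
  unfold wl
  have hr : ∀ k : ℕ, (List.range k).Nodup := fun k => List.nodup_range
  refine List.Nodup.append ?_ ?_ ?_
  · refine ((List.Nodup.product (hr _) (hr _)).filter _).map fun a b h => ?_
    simp only [Prod.mk.injEq, true_and] at h
    exact Prod.ext h.1 h.2
  · refine (List.Nodup.product (hr _) (hr _)).map fun a b h => ?_
    simp only [Prod.mk.injEq, true_and] at h
    exact Prod.ext h.1 h.2
  · intro z h1 h2
    rw [List.mem_map] at h1 h2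
    obtain ⟨p, _, rfl⟩ := h1
    obtain ⟨q, _, h3⟩ := h2
    exact absurd (congrArg Prod.fst h3) (by simp)

theorem nodup_verts (M : List (List Bool)) : (verts M).Nodup := by
  unfold verts
  have hr : ∀ k : ℕ, (List.range k).Nodup := fun k => List.nodup_range
  refine List.Nodup.append ?_ (List.Nodup.append ?_ ?_ ?_) ?_
  · refine (nodup_wl M).map fun a b h => ?_
    simp only [Prod.mk.injEq, true_and, and_true] at h
    exact h
  · refine ((List.Nodup.product (nodup_wl M) (hr _)).filter _).map fun a b h => ?_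
    simp only [Prod.mk.injEq, true_and, and_true] at h
    exact Prod.ext h.1 h.2
  · refine ((List.Nodup.product (nodup_wl M) (nodup_wl M)).filter _).map fun a b h => ?_
    simp only [Prod.mk.injEq, true_and] at h
    exact Prod.ext h.1 h.2
  · intro z h1 h2
    rw [List.mem_map] at h1 h2
    obtain ⟨p, _, rfl⟩ := h1
    obtain ⟨q, _, h3⟩ := h2
    exact absurd (congrArg Prod.fst h3) (by simp)
  · intro z h1 h2
    rw [List.mem_map] at h1
    rw [List.mem_append, List.mem_map, List.mem_map] at h2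
    obtain ⟨p, _, rfl⟩ := h1
    rcases h2 with ⟨q, _, h3⟩ | ⟨q, _, h3⟩
    · exact absurd (congrArg Prod.fst h3) (by simp)
    · exact absurd (congrArg Prod.fst h3) (by simp)

/-- The output is the adjacency matrix of a graph isomorphic to the construction. -/
theorem out_eq {n : ℕ} (X : SimpleGraph (Fin n)) : ∃ (N : ℕ) (X' : SimpleGraph (Fin N)),
    adjMatrix X' = out (adjMatrix X) ∧ Nonempty (X' ≃g GG X) := by
  obtain ⟨e, he⟩ := exists_equiv (verts (adjMatrix X)) (nodup_verts _) (code X)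
    (code_inj X) (mem_verts X)
  refine ⟨_, listGraph (verts (adjMatrix X)) adB adB_symm adB_irrefl, ?_, ⟨⟨e, ?_⟩⟩⟩
  · rw [adjMatrix_listGraph]
    rfl
  · intro a b
    rw [← adB_code, he, he]
    exact Iff.rfl

/-! ### Valid inputs -/

/-- validity of an adjacency matrix -/
def valid (M : List (List Bool)) : Bool :=
  M.all (fun r => decide (r.length = M.length)) &&
  ((List.range M.length).all (fun i => (List.range M.length).all
    (fun j => decide (ent M i j = ent M j i))) &&
  (List.range M.length).all (fun i => !(ent M i i)))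

theorem valid_iff (M : List (List Bool)) :
    valid M = true ↔ ∃ (n : ℕ) (X : SimpleGraph (Fin n)), adjMatrix X = M := by
  constructor
  · intro h
    simp only [valid, Bool.and_eq_true, List.all_eq_true, List.mem_range, decide_eq_true_eq,
      Bool.not_eq_true'] at h
    obtain ⟨h1, h2, h3⟩ := h
    refine ⟨M.length, ⟨fun i j => ent M i j = true, ⟨fun i j hij => ?_⟩, ⟨fun i hi => ?_⟩⟩, ?_⟩
    · show ent M j i = true
      rw [← h2 i i.2 j j.2]; exact hij
    · rw [h3 i i.2] at hi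
      exact absurd hi (by simp)
    · unfold adjMatrix
      apply List.ext_getElem
      · simp
      · intro i hi hi'
        have hlen : (M[i]).length = M.length := h1 _ (List.getElem_mem _)
        apply List.ext_getElem
        · simp [hlen]
        · intro j hj hj'
          simp only [List.getElem_ofFn]
          have h4 : ent M i j = (M[i])[j] := by
            unfold ent
            rw [List.getD_eq_getElem _ _ hi', List.getD_eq_getElem _ _ hj']
          rw [← h4]
          exact Bool.eq_iff_iff.2 ⟨fun h => @of_decide_eq_true _ (Classical.propDecidable _) h,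
            fun h => @decide_eq_true _ (Classical.propDecidable _) h⟩
  · rintro ⟨n, X, rfl⟩
    simp only [valid, Bool.and_eq_true, List.all_eq_true, List.mem_range, decide_eq_true_eq,
      Bool.not_eq_true', length_adjMatrix]
    refine ⟨?_, ?_, ?_⟩
    · intro r hr
      unfold adjMatrix at hr
      rw [List.mem_ofFn] at hr
      obtain ⟨i, rfl⟩ := hr
      simp
    · intro i hi j hj
      have h1 := ent_adjMatrix X ⟨i, hi⟩ ⟨j, hj⟩
      have h2 := ent_adjMatrix X ⟨j, hj⟩ ⟨i, hi⟩
      rw [X.adj_comm] at h1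
      exact Bool.eq_iff_iff.2 (h1.trans h2.symm)
    · intro i hi
      have h1 := ent_adjMatrix X ⟨i, hi⟩ ⟨i, hi⟩
      rw [Bool.eq_false_iff]
      intro h2
      exact (h1.1 h2).ne rfl

/-- the reduction -/
def red (p : List (List Bool) × List (List Bool)) : List (List Bool) × List (List Bool) :=
  if valid p.1 = true ∧ valid p.2 = true then (out p.1, out p.2)
  else (out [], out [[false]])

theorem adj_zero : adjMatrix (⊥ : SimpleGraph (Fin 0)) = [] := by
  simp [adjMatrix]

theorem adj_one : adjMatrix (⊥ : SimpleGraph (Fin 1)) = [[false]] := by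
  simp [adjMatrix]

/-- A graph is good if it is geodetic and `2`-connected and has diameter at most five. -/
def Good {V : Type} (G : SimpleGraph V) : Prop :=
  Geodetic G ∧ TwoConnected G ∧ ∀ u v : V, G.dist u v ≤ 5

theorem good_GG {n : ℕ} (X : SimpleGraph (Fin n)) : Good (GG X) :=
  ⟨geodetic_GG X, twoConnected_GG X, dist_FG (lin (pl_AA X))⟩

theorem Good.of_iso {V W : Type} {G : SimpleGraph V} {H : SimpleGraph W} (e : G ≃g H)
    (h : Good G) : Good H :=
  ⟨h.1.of_iso e, h.2.1.of_iso e, fun u v => by rw [dist_iso e h.1.1]; exact h.2.2 _ _⟩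

/-- the output for two graphs -/
theorem out_pair {n m : ℕ} (X : SimpleGraph (Fin n)) (Y : SimpleGraph (Fin m)) :
    ∃ (N M : ℕ) (X' : SimpleGraph (Fin N)) (Y' : SimpleGraph (Fin M)),
      (out (adjMatrix X), out (adjMatrix Y)) = (adjMatrix X', adjMatrix Y') ∧ Good X' ∧ Good Y' ∧
        (Nonempty (X ≃g Y) ↔ Nonempty (X' ≃g Y')) := by
  obtain ⟨N, X', hX', ⟨φ⟩⟩ := out_eq X
  obtain ⟨M, Y', hY', ⟨ψ⟩⟩ := out_eq Y
  refine ⟨N, M, X', Y', by rw [hX', hY'], (good_GG X).of_iso φ.symm, (good_GG Y).of_iso ψ.symm, ?_⟩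
  rw [iso_iff X Y]
  constructor
  · rintro ⟨χ⟩
    exact ⟨φ.trans (χ.trans ψ.symm)⟩
  · rintro ⟨χ⟩
    exact ⟨φ.symm.trans (χ.trans ψ)⟩

theorem graphIso_iff {n m : ℕ} (X : SimpleGraph (Fin n)) (Y : SimpleGraph (Fin m)) :
    GraphIso (adjMatrix X, adjMatrix Y) ↔ Nonempty (X ≃g Y) := by
  constructor
  · rintro ⟨n', m', X₁, Y₁, e1, e2, h⟩
    have hn' : n' = n := by
      rw [← length_adjMatrix X₁, e1, length_adjMatrix]
    have hm' : m' = m := by
      rw [← length_adjMatrix Y₁, e2, length_adjMatrix]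
    subst hn'
    subst hm'
    rw [adjMatrix_inj e1, adjMatrix_inj e2] at h
    exact h
  · intro h
    exact ⟨n, m, X, Y, rfl, rfl, h⟩

theorem no_iso : ¬Nonempty ((⊥ : SimpleGraph (Fin 0)) ≃g (⊥ : SimpleGraph (Fin 1))) := by
  rintro ⟨φ⟩
  exact (φ.symm 0).elim0

theorem red_spec (p : List (List Bool) × List (List Bool)) :
    ∃ (N M : ℕ) (X' : SimpleGraph (Fin N)) (Y' : SimpleGraph (Fin M)),
      red p = (adjMatrix X', adjMatrix Y') ∧ Good X' ∧ Good Y' ∧
        (GraphIso p ↔ Nonempty (X' ≃g Y')) := by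
  by_cases h : valid p.1 = true ∧ valid p.2 = true
  · obtain ⟨p1, p2⟩ := p
    have h' := h
    simp only [valid_iff] at h'
    obtain ⟨⟨n, X, rfl⟩, ⟨m, Y, rfl⟩⟩ := h'
    obtain ⟨N, M, X', Y', h1, h2, h3, h4⟩ := out_pair X Y
    refine ⟨N, M, X', Y', ?_, h2, h3, ?_⟩
    · unfold red
      rw [if_pos h, h1]
    · rw [graphIso_iff, h4]
  · obtain ⟨N, M, X', Y', h1, h2, h3, h4⟩ :=
      out_pair (⊥ : SimpleGraph (Fin 0)) (⊥ : SimpleGraph (Fin 1))
    refine ⟨N, M, X', Y', ?_, h2, h3, ?_⟩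
    · unfold red
      rw [if_neg h, ← h1, adj_zero, adj_one]
    · rw [← h4]
      constructor
      · rintro ⟨n, m, X, Y, e1, e2, -⟩
        exact absurd ⟨(valid_iff _).2 ⟨n, X, e1⟩, (valid_iff _).2 ⟨m, Y, e2⟩⟩ h
      · intro h5
        exact absurd h5 no_iso

/-! ### Polynomial time -/

section

variable {α : Type} [TEnc α]

@[fun_prop]
theorem poly_ent {f : α → List (List Bool)} {g h : α → ℕ} (hf : Poly f)
    (hg : Poly g) (hh : Poly h) : Poly (fun a => ent (f a) (g a) (h a)) := by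
  unfold ent
  fun_prop

@[fun_prop]
theorem poly_incB {u : α → ℕ} {z : α → PL3} (hu : Poly u) (hz : Poly z) :
    Poly (fun a => incB (u a) (z a)) := by
  unfold incB
  fun_prop

@[fun_prop]
theorem poly_range_len {f : α → List (List Bool)} (hf : Poly f) :
    Poly (fun a => List.range (f a).length) := Poly.range_length hf

@[fun_prop]
theorem poly_range_len1 {f : α → List (List Bool)} (hf : Poly f) :
    Poly (fun a => List.range ((f a).length + 1)) :=
  (UPoly.add (UPoly.length hf) (UPoly.const 1)).range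

@[fun_prop]
theorem poly_wl {f : α → List (List Bool)} (hf : Poly f) : Poly (fun a => wl (f a)) := by
  unfold wl
  fun_prop

@[fun_prop]
theorem poly_verts {f : α → List (List Bool)} (hf : Poly f) : Poly (fun a => verts (f a)) := by
  unfold verts
  fun_prop

@[fun_prop]
theorem poly_adB {a b : α → Lb} (ha : Poly a) (hb : Poly b) :
    Poly (fun x => adB (a x) (b x)) := by
  unfold adB
  fun_prop

@[fun_prop]
theorem poly_out {f : α → List (List Bool)} (hf : Poly f) : Poly (fun a => out (f a)) := by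
  unfold out
  fun_prop

@[fun_prop]
theorem poly_valid {f : α → List (List Bool)} (hf : Poly f) : Poly (fun a => valid (f a)) := by
  unfold valid
  fun_prop

end

theorem poly_red : Poly red := by
  unfold red
  fun_prop

/-- The reduction on bit strings. -/
def redBits (x : List Bool) : List (List Bool) × List (List Bool) :=
  (unbits (List (List Bool) × List (List Bool)) x).elim (out [], out [[false]]) red

theorem poly_redBits : Poly redBits := by
  unfold redBits
  exact NPC.Poly.optElim poly_unbits (NPC.Poly.const _) (poly_red.comp (NPC.Poly.snd NPC.Poly.id))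

theorem redBits_spec (x : List Bool) :
    ∃ (N M : ℕ) (X' : SimpleGraph (Fin N)) (Y' : SimpleGraph (Fin M)),
      redBits x = (adjMatrix X', adjMatrix Y') ∧ Good X' ∧ Good Y' ∧
        (x ∈ lang GraphIso ↔ Nonempty (X' ≃g Y')) := by
  unfold redBits
  rw [mem_lang_iff]
  cases h : unbits (List (List Bool) × List (List Bool)) x with
  | none =>
    obtain ⟨N, M, X', Y', h1, h2, h3, h4⟩ :=
      out_pair (⊥ : SimpleGraph (Fin 0)) (⊥ : SimpleGraph (Fin 1))
    rw [adj_zero, adj_one] at h1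
    refine ⟨N, M, X', Y', h1, h2, h3, ?_⟩
    rw [← h4]
    constructor
    · rintro ⟨a, ha, _⟩
      exact absurd ha (by simp)
    · intro h5
      exact absurd h5 no_iso
  | some p =>
    obtain ⟨N, M, X', Y', h1, h2, h3, h4⟩ := red_spec p
    refine ⟨N, M, X', Y', h1, h2, h3, ?_⟩
    rw [← h4]
    constructor
    · rintro ⟨a, ha, h5⟩
      rw [Option.some.inj ha]
      exact h5
    · intro h5
      exact ⟨p, rfl, h5⟩

/-- The reduction from graph isomorphism. -/
theorem main : ∃ f : List Bool → List Bool, PolyTime f ∧ ∀ x : List Bool,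
    ∃ (N M : ℕ) (X' : SimpleGraph (Fin N)) (Y' : SimpleGraph (Fin M)),
      f x = bits (adjMatrix X', adjMatrix Y') ∧ Good X' ∧ Good Y' ∧
        (x ∈ lang GraphIso ↔ Nonempty (X' ≃g Y')) := by
  refine ⟨fun x => bits (redBits x), polyTime_bits poly_redBits, fun x => ?_⟩
  obtain ⟨N, M, X', Y', h1, h2, h3, h4⟩ := redBits_spec x
  exact ⟨N, M, X', Y', congrArg bits h1, h2, h3, h4⟩

/-- There is a polynomial-time algorithm which decides, for any two graphs of the class `K`, given by
their adjacency matrices, whether they are isomorphic. -/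
def IsoInP (K : ∀ n : ℕ, SimpleGraph (Fin n) → Prop) : Prop :=
  ∃ g : List Bool → List Bool, PolyTime g ∧
    ∀ (n m : ℕ) (X : SimpleGraph (Fin n)) (Y : SimpleGraph (Fin m)), K n X → K m Y →
      (g (bits (adjMatrix X, adjMatrix Y)) = [true] ↔ Nonempty (X ≃g Y))

theorem isoInP_iff (K : ∀ n : ℕ, SimpleGraph (Fin n) → Prop) (hK : ∀ n X, Good X → K n X) :
    IsoInP K ↔ IsoInP (fun _ _ => True) := by
  constructor
  · rintro ⟨g, hg, h⟩
    obtain ⟨f, hf, hf2⟩ := main
    refine ⟨fun x => g (f x), H642R2.TMSim.polyTime_comp hg hf, fun n m X Y _ _ => ?_⟩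
    obtain ⟨N, M, X', Y', h1, h2, h3, h4⟩ := hf2 (bits (adjMatrix X, adjMatrix Y))
    show g (f (bits (adjMatrix X, adjMatrix Y))) = [true] ↔ Nonempty (X ≃g Y)
    rw [h1, h N M X' Y' (hK _ _ h2) (hK _ _ h3), ← h4, bits_mem_lang, graphIso_iff]
  · rintro ⟨g, hg, h⟩
    exact ⟨g, hg, fun n m X Y _ _ => h n m X Y trivial trivial⟩

end Pool.Agent.Q230.GD
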