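import Pool.Agent.Q230.GD.Rec

/-!
# The linear space of a graph

Each vertex of the graph is a big line; two big lines meet if the vertices are adjacent. Each big line
has three further points, and there are three points outside of all big lines.
-/

set_option autoImplicit false

namespace Pool.Agent.Q230.GD

/-- the points: the edges, and three points for each vertex and for one further symbol -/
abbrev Wt {n : ℕ} (X : SimpleGraph (Fin n)) : Type :=
  {p : Fin n × Fin n // p.1 < p.2 ∧ X.Adj p.1 p.2} ⊕ (Option (Fin n) × Fin 3)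

/-- the incidence of the vertices with the points -/
def AA {n : ℕ} (X : SimpleGraph (Fin n)) (u : Fin n) : Wt X → Prop
  | Sum.inl p => u = p.1.1 ∨ u = p.1.2
  | Sum.inr q => q.1 = some u

theorem fin3 (k : Fin 3) : ∃ i j : Fin 3, i ≠ j ∧ i ≠ k ∧ j ≠ k := by
  fin_cases k
  · exact ⟨1, 2, by decide, by decide, by decide⟩
  · exact ⟨0, 2, by decide, by decide, by decide⟩
  · exact ⟨0, 1, by decide, by decide, by decide⟩

theorem pl_AA {n : ℕ} (X : SimpleGraph (Fin n)) : PL (AA X) := by
  constructor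
  · rintro p q u v hpq h1 h2 h3 h4
    by_contra huv
    cases p with
    | inr p =>
      have e1 : p.1 = some u := h1
      have e2 : p.1 = some v := h3
      rw [e1] at e2
      exact huv (Option.some_injective _ e2)
    | inl p =>
      cases q with
      | inr q =>
        have e1 : q.1 = some u := h2
        have e2 : q.1 = some v := h4
        rw [e1] at e2
        exact huv (Option.some_injective _ e2)
      | inl q =>
        obtain ⟨⟨p1, p2⟩, hp, hp'⟩ := p
        obtain ⟨⟨q1, q2⟩, hq, hq'⟩ := q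
        have g1 : u = p1 ∨ u = p2 := h1
        have g2 : u = q1 ∨ u = q2 := h2
        have g3 : v = p1 ∨ v = p2 := h3
        have g4 : v = q1 ∨ v = q2 := h4
        simp only at hp hq
        have : p1 = q1 ∧ p2 = q2 := by
          rcases g1 with rfl | rfl <;> rcases g3 with rfl | rfl
          · exact absurd rfl huv
          · rcases g2 with rfl | rfl <;> rcases g4 with rfl | rfl
            · exact absurd rfl huv
            · exact ⟨rfl, rfl⟩
            · exact absurd (hp.trans hq) (lt_irrefl _)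
            · exact absurd rfl huv
          · rcases g2 with rfl | rfl <;> rcases g4 with rfl | rfl
            · exact absurd rfl huv
            · exact absurd (hp.trans hq) (lt_irrefl _)
            · exact ⟨rfl, rfl⟩
            · exact absurd rfl huv
          · exact absurd rfl huv
        obtain ⟨rfl, rfl⟩ := this
        exact hpq rfl
  · intro u w
    cases w with
    | inl p =>
      exact ⟨Sum.inr (some u, 0), Sum.inr (some u, 1), rfl, rfl, by simp, by simp, by simp⟩
    | inr q =>
      obtain ⟨i, j, h1, h2, h3⟩ := fin3 q.2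
      refine ⟨Sum.inr (some u, i), Sum.inr (some u, j), rfl, rfl, ?_, ?_, ?_⟩
      · intro h
        exact h1 (congrArg Prod.snd (Sum.inr_injective h))
      · intro h
        exact h2 (congrArg Prod.snd (Sum.inr_injective h))
      · intro h
        exact h3 (congrArg Prod.snd (Sum.inr_injective h))

theorem meet_AA {n : ℕ} (X : SimpleGraph (Fin n)) (u v : Fin n) :
    Meet (AA X) u v ↔ X.Adj u v := by
  constructor
  · rintro ⟨huv, w, h1, h2⟩
    cases w with
    | inr q =>
      have e1 : q.1 = some u := h1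
      have e2 : q.1 = some v := h2
      rw [e1] at e2
      exact absurd (Option.some_injective _ e2) huv
    | inl p =>
      obtain ⟨⟨p1, p2⟩, hp, hp'⟩ := p
      have g1 : u = p1 ∨ u = p2 := h1
      have g2 : v = p1 ∨ v = p2 := h2
      simp only at hp'
      rcases g1 with rfl | rfl <;> rcases g2 with rfl | rfl
      · exact absurd rfl huv
      · exact hp'
      · exact hp'.symm
      · exact absurd rfl huv
  · intro h
    refine ⟨h.ne, ?_⟩
    rcases lt_or_gt_of_ne h.ne with hlt | hlt
    · exact ⟨Sum.inl ⟨(u, v), hlt, h⟩, Or.inl rfl, Or.inr rfl⟩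
    · exact ⟨Sum.inl ⟨(v, u), hlt, h.symm⟩, Or.inr rfl, Or.inl rfl⟩

/-- the flag graph of a graph -/
abbrev GG {n : ℕ} (X : SimpleGraph (Fin n)) : SimpleGraph (Fl (Inc (AA X))) := FG (Inc (AA X))

instance {n : ℕ} (X : SimpleGraph (Fin n)) : Nonempty (Wt X) := ⟨Sum.inr (none, 0)⟩

theorem geodetic_GG {n : ℕ} (X : SimpleGraph (Fin n)) : Geodetic (GG X) :=
  geodetic_FG (lin (pl_AA X))

theorem three_pts {n : ℕ} (X : SimpleGraph (Fin n)) (i j : Fin 3) (hij : i ≠ j) :
    (Sum.inr (none, i) : Wt X) ≠ Sum.inr (none, j) := by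
  intro h
  exact hij (congrArg Prod.snd (Sum.inr_injective h))

theorem twoConnected_GG {n : ℕ} (X : SimpleGraph (Fin n)) : TwoConnected (GG X) := by
  refine twoConnected_FG (lin (pl_AA X)) (two_points (pl_AA X)) ?_
    ⟨Sum.inr (none, 0), Sum.inr (none, 1), Sum.inr (none, 2), three_pts X _ _ (by decide),
      three_pts X _ _ (by decide), three_pts X _ _ (by decide)⟩
  rintro (u | s)
  · refine ⟨Sum.inr (none, 0), fun h => ?_⟩
    have : (none : Option (Fin n)) = some u := h
    exact absurd this (by simp)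
  · by_contra hcon
    push Not at hcon
    have g0 := (hcon (Sum.inr (none, 0))).1
    have g1 := (hcon (Sum.inr (none, 1))).1
    have g2 := (hcon (Sum.inr (none, 2))).1
    rw [(Sym2.mem_and_mem_iff (three_pts X 0 1 (by decide))).1 ⟨g0, g1⟩, Sym2.mem_iff] at g2
    rcases g2 with h | h
    · exact three_pts X 2 0 (by decide) h
    · exact three_pts X 2 1 (by decide) h

/-- the action of an isomorphism on the edges -/
def edF {n m : ℕ} {X : SimpleGraph (Fin n)} {Y : SimpleGraph (Fin m)} (φ : X ≃g Y)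
    (p : {p : Fin n × Fin n // p.1 < p.2 ∧ X.Adj p.1 p.2}) :
    {p : Fin m × Fin m // p.1 < p.2 ∧ Y.Adj p.1 p.2} :=
  if h : φ p.1.1 < φ p.1.2 then ⟨(φ p.1.1, φ p.1.2), h, φ.map_adj_iff.2 p.2.2⟩
  else ⟨(φ p.1.2, φ p.1.1), lt_of_le_of_ne (not_lt.1 h) (fun e => p.2.2.ne (φ.injective e.symm)),
    (φ.map_adj_iff.2 p.2.2).symm⟩

theorem edF_cases {n m : ℕ} {X : SimpleGraph (Fin n)} {Y : SimpleGraph (Fin m)} (φ : X ≃g Y)
    (p : {p : Fin n × Fin n // p.1 < p.2 ∧ X.Adj p.1 p.2}) :
    ((edF φ p).1.1 = φ p.1.1 ∧ (edF φ p).1.2 = φ p.1.2) ∨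
      ((edF φ p).1.1 = φ p.1.2 ∧ (edF φ p).1.2 = φ p.1.1) := by
  unfold edF
  split
  · exact Or.inl ⟨rfl, rfl⟩
  · exact Or.inr ⟨rfl, rfl⟩

theorem edF_bij {n m : ℕ} {X : SimpleGraph (Fin n)} {Y : SimpleGraph (Fin m)} (φ : X ≃g Y) :
    Function.Bijective (edF φ) := by
  constructor
  · rintro p q h
    have h1 := edF_cases φ p
    have h2 := edF_cases φ q
    rw [← h] at h2
    obtain ⟨⟨p1, p2⟩, hp, hp'⟩ := p
    obtain ⟨⟨q1, q2⟩, hq, hq'⟩ := q
    simp only at h1 h2 hp hq
    have : p1 = q1 ∧ p2 = q2 := by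
      rcases h1 with ⟨a1, a2⟩ | ⟨a1, a2⟩ <;> rcases h2 with ⟨b1, b2⟩ | ⟨b1, b2⟩
      · exact ⟨φ.injective (a1.symm.trans b1), φ.injective (a2.symm.trans b2)⟩
      · exfalso
        have c1 := φ.injective (a1.symm.trans b1)
        have c2 := φ.injective (a2.symm.trans b2)
        subst c1
        subst c2
        exact lt_irrefl _ (hp.trans hq)
      · exfalso
        have c1 := φ.injective (a1.symm.trans b1)
        have c2 := φ.injective (a2.symm.trans b2)
        subst c1
        subst c2
        exact lt_irrefl _ (hp.trans hq)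
      · exact ⟨φ.injective (a2.symm.trans b2), φ.injective (a1.symm.trans b1)⟩
    obtain ⟨rfl, rfl⟩ := this
    rfl
  · rintro ⟨⟨q1, q2⟩, hq, hq'⟩
    simp only at hq hq'
    have hadj : X.Adj (φ.symm q1) (φ.symm q2) := φ.symm.map_adj_iff.2 hq'
    rcases lt_or_gt_of_ne hadj.ne with hlt | hlt
    · refine ⟨⟨(φ.symm q1, φ.symm q2), hlt, hadj⟩, ?_⟩
      unfold edF
      simp only
      apply Subtype.ext
      split
      · simp
      · rename_i hn
        simp only [φ.apply_symm_apply] at hn
        exact absurd hq hn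
    · refine ⟨⟨(φ.symm q2, φ.symm q1), hlt, hadj.symm⟩, ?_⟩
      unfold edF
      simp only
      apply Subtype.ext
      split
      · rename_i hn
        simp only [φ.apply_symm_apply] at hn
        exact absurd (hq.trans hn) (lt_irrefl _)
      · simp

theorem iso_iff {n m : ℕ} (X : SimpleGraph (Fin n)) (Y : SimpleGraph (Fin m)) :
    Nonempty (X ≃g Y) ↔ Nonempty (GG X ≃g GG Y) := by
  constructor
  · rintro ⟨φ⟩
    refine mapIso φ.toEquiv (Equiv.sumCongr (Equiv.ofBijective (edF φ) (edF_bij φ))
      (Equiv.prodCongr (Equiv.optionCongr φ.toEquiv) (Equiv.refl _))) ?_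
    rintro u (p | ⟨o, k⟩)
    · show (u = p.1.1 ∨ u = p.1.2) ↔ (φ u = (edF φ p).1.1 ∨ φ u = (edF φ p).1.2)
      rcases edF_cases φ p with ⟨h1, h2⟩ | ⟨h1, h2⟩
      · rw [h1, h2, φ.injective.eq_iff, φ.injective.eq_iff]
      · rw [h1, h2, φ.injective.eq_iff, φ.injective.eq_iff, or_comm]
    · show o = some u ↔ Option.map φ o = some (φ u)
      cases o with
      | none => simp
      | some x => simp
  · rintro ⟨e⟩
    obtain ⟨σ, hσ⟩ := recon (pl_AA X) (pl_AA Y) e
    refine ⟨⟨σ, fun {a b} => ?_⟩⟩
    rw [← meet_AA, ← meet_AA]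
    exact (hσ a b).symm

end Pool.Agent.Q230.GD
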